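import Mathlib
import Pool.Agent.Y94.LL.Up6

/-!
# MP_ce2d68_nt: the sector constant near the angle `π` and the lengths of its stairs

Angles are in radians. `cc θ` (in `Pool.Agent.Y94.LL.Up5`) is the infimum of the normalised Mahler
measures of the nonzero algebraic integers which are not roots of unity and whose conjugates all
have argument at most `θ` in absolute value.
-/

set_option autoImplicit false

namespace Pool.Agent.Results.MP_ce2d68_nt.StairsNearPi

open Pool.Agent.Y94.LL Polynomial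

/-- (1) The constant near `π`, up to a power of a logarithm. (2) No stair is long: the constant
strictly decreases between two angles as soon as the distance to `π` shrinks by more than a fixed
power of its logarithm. (3) In particular, if the constant is the same on `[a, b)` then `b < π` is
forced, with an explicit relation between the two distances. (4) There are at least `K + 1`
different values at angles in `[π - 1/8, π - x]` if `8 x (C log(2/x)³)^K ≤ 1`. -/
theorem result :
    (∃ c : ℝ, 0 < c ∧ ∀ θ : ℝ, Real.pi - 1 / 8 ≤ θ → θ < Real.pi →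
      Real.exp (c * (Real.pi - θ) ^ 2 / (Real.log (2 / (Real.pi - θ))) ^ 5) ≤ cc θ ∧
      cc θ ≤ Real.exp (256 * (Real.pi - θ) ^ 2 * Real.log (2 / (Real.pi - θ)))) ∧
    (∃ C : ℝ, 1 ≤ C ∧
      (∀ θ₁ θ₂ : ℝ, Real.pi - 1 / 8 ≤ θ₁ → θ₁ ≤ θ₂ → θ₂ < Real.pi →
        C * (Real.pi - θ₂) * (Real.log (2 / (Real.pi - θ₂))) ^ 3 ≤ Real.pi - θ₁ →
        cc θ₂ < cc θ₁) ∧
      (∀ a b : ℝ, Real.pi - 1 / 8 ≤ a → a < b → b ≤ Real.pi →
        (∀ θ : ℝ, a ≤ θ → θ < b → cc θ = cc a) →
        b < Real.pi ∧ Real.pi - a ≤ C * (Real.pi - b) * (Real.log (2 / (Real.pi - b))) ^ 3) ∧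
      (∀ x : ℝ, 0 < x → x ≤ 1 / 8 → ∀ K : ℕ,
        8 * x * (C * (Real.log (2 / x)) ^ 3) ^ K ≤ 1 →
        ∃ t : ℕ → ℝ, (∀ k ≤ K, Real.pi - 1 / 8 ≤ t k ∧ t k ≤ Real.pi - x) ∧
          ∀ k < K, cc (t (k + 1)) < cc (t k))) := by
  constructor
  · obtain ⟨c, hc, h⟩ := cc_lower
    exact ⟨c, hc, fun θ h0 h1 => ⟨h θ (by linarith) h1, cc_upper θ h0 h1⟩⟩
  · obtain ⟨C, hC, h⟩ := cc_strict
    exact ⟨C, hC, h, stairs (by linarith) h, count_values hC h⟩

end Pool.Agent.Results.MP_ce2d68_nt.StairsNearPi
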